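import Mathlib
import Pool.Agent.Lib.helper17.Erdos

namespace Pool.Agent.Results.MP_fe8a5b_an.Yes

def Sph {M : Type} [MetricSpace M] (o : M) (f : M → ℝ) : Prop :=
  f o = 0 ∧ IsLUB {r | ∃ x y, x ≠ y ∧ r = |f x - f y| / dist x y} 1

lemma met {M : Type} (E : M → M → Prop) (w : M → ℝ) (w1 : ∀ a, 1 ≤ w a) :
    ∃ _ : MetricSpace M, (∀ a b, dist a b ≤ w a + w b) ∧ (∀ a b, E a b → dist a b ≤ 1) ∧
      (∀ a b : M, a ≠ b → 1 ≤ dist a b) ∧ ∀ (L : ℝ) (h : M → ℝ), 0 < L →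
        (∀ a b, E a b → |h a - h b| ≤ L) → (∀ a b, |h a - h b| ≤ L * (w a + w b)) →
          ∀ a b, |h a - h b| ≤ L * dist a b := by
  classical
  let Φ := {φ : M → ℝ // (∀ a b, E a b → |φ a - φ b| ≤ 1) ∧ ∀ a b, |φ a - φ b| ≤ w a + w b}
  have : Nonempty Φ := ⟨⟨0, by simp, fun a b => by simp; linarith [w1 a, w1 b]⟩⟩
  let d : M → M → ℝ := fun a b => ⨆ φ : Φ, |φ.1 a - φ.1 b|
  have le : ∀ (φ : Φ) a b, |φ.1 a - φ.1 b| ≤ d a b := fun φ a b =>
    le_ciSup (f := fun φ : Φ => |φ.1 a - φ.1 b|) ⟨w a + w b, by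
      rintro _ ⟨φ, rfl⟩; exact φ.2.2 a b⟩ φ
  have one : ∀ a b, a ≠ b → 1 ≤ d a b := fun a b h => by
    have k : ∀ x y, |(if x = a then 1 else 0 : ℝ) - if y = a then 1 else 0| ≤ 1 := fun x y => by
      split_ifs <;> simp
    simpa [h.symm] using le ⟨fun x => if x = a then 1 else 0, fun x y _ => k x y,
      fun x y => (k x y).trans (by linarith [w1 x, w1 y])⟩ a b
  refine ⟨{ dist := d
            dist_self := fun a => by simp [d]
            dist_comm := fun a b => by simp only [d, abs_sub_comm]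
            dist_triangle := fun a b c => ciSup_le fun φ =>
              (abs_sub_le _ _ _).trans (add_le_add (le φ a b) (le φ b c))
            eq_of_dist_eq_zero := fun {a b} h => by
              by_contra k
              linarith [one a b k, show d a b = 0 from h] },
    fun a b => ciSup_le fun φ => φ.2.2 a b, fun a b h => ciSup_le fun φ => φ.2.1 a b h, one,
    fun L h L0 h1 h2 a b => ?_⟩
  have k : ∀ a b r, |h a / L - h b / L| ≤ r ↔ |h a - h b| ≤ L * r := fun a b r => by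
    rw [← sub_div, abs_div, abs_of_pos L0, div_le_iff₀' L0]
  exact (k a b _).1 (le ⟨fun x => h x / L, fun a b e => (k a b _).2 (by simpa using h1 a b e),
    fun a b => (k a b _).2 (h2 a b)⟩ a b)

theorem result : ∃ (M : Type) (_ : MetricSpace M) (o : M),
    ¬ Bornology.IsBounded (Set.univ : Set M) ∧ (∃ δ > 0, ∀ x y : M, x ≠ y → δ ≤ dist x y) ∧
    ∀ (k : ℕ) (f : Fin k → M → ℝ), (∀ i, Sph o (f i)) → ∀ ε > 0, ∃ y, Sph o y ∧ ∀ i a b,
      |(f i a + y a) - (f i b + y b)| ≤ (1 + ε) * dist a b ∧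
      |(f i a - y a) - (f i b - y b)| ≤ (1 + ε) * dist a b := by
  classical
  choose N T h1 h2 using fun n => Pool.Agent.Lib.helper17.Erdos.erdos (n + 1) n
  choose pt _ _ using fun n => h2 n 0
  have w1 : ∀ a : Σ n, Fin (N n), (1 : ℝ) ≤ a.1 + 1 := fun a => by simp
  obtain ⟨I, d1, d2, d3, d4⟩ := met (M := Σ n, Fin (N n))
    (fun a b => ∃ n u v, (T n).Adj u v ∧ a = ⟨n, u⟩ ∧ b = ⟨n, v⟩) (fun a => a.1 + 1) w1
  refine ⟨_, I, ⟨0, pt 0⟩, fun h => ?_, ⟨1, one_pos, d3⟩, fun k f hf ε ε0 => ?_⟩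
  · obtain ⟨C, hC⟩ := Metric.isBounded_iff.1 h
    obtain ⟨n, hn⟩ := exists_nat_gt C
    have := d4 1 (fun a => a.1) one_pos (by rintro _ _ ⟨n, u, v, -, rfl, rfl⟩; simp)
      (fun a b => by
        rw [abs_le]
        constructor <;> linarith [w1 a, w1 b]) ⟨n, pt n⟩ ⟨0, pt 0⟩
    simp at this
    linarith [hC (Set.mem_univ ⟨n, pt n⟩) (Set.mem_univ ⟨0, pt 0⟩)]
  have fl : ∀ i a b, |f i a - f i b| ≤ dist a b := fun i a b => by
    rcases eq_or_ne a b with rfl | h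
    · simp
    · exact (div_le_one (dist_pos.2 h)).1 ((hf i).2.1 ⟨a, b, h, rfl⟩)
  obtain ⟨Q, hQ⟩ := exists_nat_gt (1 / ε)
  have Q0 : (0 : ℝ) < Q := lt_trans (by positivity) hQ
  rw [div_lt_iff₀ ε0] at hQ
  set n := (Q + 2) ^ k + Q with hn
  obtain ⟨ι⟩ := Function.Embedding.nonempty_of_card_le (α := Fin k → ZMod (Q + 2))
    (β := Fin (n + 1)) (by simp [hn]; omega)
  obtain ⟨p, q, pq, hc⟩ := h2 n fun u => ι fun i => (⌊Q * f i ⟨n, u⟩⌋ : ℤ)
  have fe : ∀ i, |f i ⟨n, p⟩ - f i ⟨n, q⟩| ≤ ε := fun i => by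
    have a := (ZMod.intCast_eq_intCast_iff_dvd_sub _ _ _).1 (congrFun (ι.injective hc) i)
    have b := abs_le.1 ((fl i _ _).trans (d2 _ _ ⟨n, p, q, pq, rfl, rfl⟩))
    have c1 := Int.floor_le (Q * f i ⟨n, p⟩)
    have c2 := Int.floor_le (Q * f i ⟨n, q⟩)
    have c3 := Int.lt_floor_add_one (Q * f i ⟨n, p⟩)
    have c4 := Int.lt_floor_add_one (Q * f i ⟨n, q⟩)
    have e := Int.eq_zero_of_abs_lt_dvd a (by
      rw [abs_lt, ← Int.cast_lt (R := ℝ), ← Int.cast_lt (R := ℝ)]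
      push_cast
      constructor <;> nlinarith [b.1, b.2])
    rw [sub_eq_zero.1 e] at c2 c4
    rw [abs_le]
    constructor <;> nlinarith
  obtain ⟨z, z1, z2, z3, z4⟩ := Pool.Agent.Lib.helper17.Erdos.sep (h1 n) pq
  have n0 : (0 : ℝ) < n + 1 := by positivity
  have nε : 1 ≤ ε * (n + 1) := by
    have : (Q : ℝ) ≤ n := by exact_mod_cast Nat.le_add_left _ _
    nlinarith
  let y : (Σ n, Fin (N n)) → ℝ := fun a =>
    Function.update (0 : ∀ m, Fin (N m) → ℝ) n (fun u => 1 - z u / (n + 1)) a.1 a.2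
  have y1 : ∀ u, y ⟨n, u⟩ = 1 - z u / (n + 1) := fun u => by simp [y]
  have y2 : ∀ a, a.1 ≠ n → y a = 0 := fun a h => by simp [y, h]
  have y3 : ∀ a, 0 ≤ y a ∧ y a ≤ 1 ∧ y a ≤ ε * (a.1 + 1) := by
    rintro ⟨m, u⟩
    rcases eq_or_ne m n with rfl | h
    · have a : (z u : ℝ) / (n + 1) ≤ 1 := (div_le_one n0).2 (by exact_mod_cast z3 u)
      have b : 0 ≤ (z u : ℝ) / (n + 1) := by positivity
      rw [y1]
      exact ⟨by linarith, by linarith, by linarith⟩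
    · rw [y2 _ h]
      exact ⟨le_rfl, zero_le_one, by positivity⟩
  have y4 : ∀ a b, |y a - y b| ≤ 1 := fun a b => by
    rw [abs_le]; constructor <;> linarith [y3 a, y3 b]
  have y5 : ∀ a b, |y a - y b| ≤ dist a b := fun a b => by
    rcases eq_or_ne a b with rfl | h
    · simp
    · exact (y4 a b).trans (d3 a b h)
  have y6 : ∀ i a b, (∃ n u v, (T n).Adj u v ∧ a = ⟨n, u⟩ ∧ b = ⟨n, v⟩) →
      |f i a - f i b| + |y a - y b| ≤ 1 + ε := fun i a b h => by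
    have a1 := (fl i a b).trans (d2 a b h)
    obtain ⟨m, u, v, h, rfl, rfl⟩ := h
    rcases eq_or_ne m n with rfl | hm
    · by_cases e : s(u, v) = s(p, q)
      · have := y4 ⟨n, u⟩ ⟨n, v⟩
        rcases Sym2.eq_iff.1 e with ⟨rfl, rfl⟩ | ⟨rfl, rfl⟩
        · linarith [fe i]
        · linarith [fe i, abs_sub_comm (f i ⟨n, u⟩) (f i ⟨n, v⟩)]
      · have b1 : (z v : ℝ) ≤ z u + 1 := by exact_mod_cast z4 u v h e
        have b2 : (z u : ℝ) ≤ z v + 1 := by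
          exact_mod_cast z4 v u h.symm (by rwa [Sym2.eq_swap])
        have : |y ⟨n, u⟩ - y ⟨n, v⟩| ≤ ε := by
          rw [y1, y1, sub_sub_sub_cancel_left, ← sub_div, abs_div, abs_of_pos n0,
            div_le_iff₀ n0, abs_le]
          constructor <;> linarith
        linarith
    · rw [y2 _ hm, y2 _ hm]
      simp
      linarith
  have y7 : ∀ i a b, |f i a - f i b| + |y a - y b| ≤ (1 + ε) * ((a.1 + 1) + (b.1 + 1)) :=
    fun i a b => by
      have := (fl i a b).trans (d1 a b)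
      have : |y a - y b| ≤ ε * (a.1 + 1) + ε * (b.1 + 1) := by
        rw [abs_le]; constructor <;> linarith [y3 a, y3 b]
      linarith
  refine ⟨fun a => y a - y ⟨0, pt 0⟩, ⟨sub_self _, ?_, fun r hr => ?_⟩, fun i a b => ?_⟩
  · rintro _ ⟨a, b, h, rfl⟩
    rw [sub_sub_sub_cancel_right]
    exact (div_le_one (dist_pos.2 h)).2 (y5 a b)
  · have ne : (⟨n, p⟩ : Σ n, Fin (N n)) ≠ ⟨n, q⟩ := by simpa using pq.ne
    refine le_trans (le_of_eq ?_) (hr ⟨_, _, ne, rfl⟩)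
    rw [sub_sub_sub_cancel_right, y1, y1, z1, z2,
      le_antisymm (d2 _ _ ⟨n, p, q, pq, rfl, rfl⟩) (d3 _ _ ne)]
    simp [n0.ne']
  have t1 : ∀ a b, |(f i a + (y a - y ⟨0, pt 0⟩)) - (f i b + (y b - y ⟨0, pt 0⟩))| ≤
      |f i a - f i b| + |y a - y b| := fun a b =>
    (le_of_eq (by congr 1; ring)).trans (abs_add_le _ _)
  have t2 : ∀ a b, |(f i a - (y a - y ⟨0, pt 0⟩)) - (f i b - (y b - y ⟨0, pt 0⟩))| ≤
      |f i a - f i b| + |y a - y b| := fun a b =>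
    (le_of_eq (by congr 1; ring)).trans (abs_sub _ _)
  exact ⟨d4 _ (fun a => f i a + (y a - y ⟨0, pt 0⟩)) (by linarith)
      (fun a b e => (t1 a b).trans (y6 i a b e)) (fun a b => (t1 a b).trans (y7 i a b)) a b,
    d4 _ (fun a => f i a - (y a - y ⟨0, pt 0⟩)) (by linarith)
      (fun a b e => (t2 a b).trans (y6 i a b e)) (fun a b => (t2 a b).trans (y7 i a b)) a b⟩

end Pool.Agent.Results.MP_fe8a5b_an.Yes
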